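import Pool.Agent.Helper33.Iso.Goals

/-!
# Packet ISO-THETA
-/

set_option autoImplicit false

open Topology unitInterval RealInnerProductSpace
open Pool.Agent.Helper72.Orb

namespace Pool.Agent.Helper72.Iso

open Pool.Agent.Helper33.Iso

universe w

theorem gTHETA (_hMAPS : Pool.Agent.Helper33.Iso.MAPS.{w})
    (hQFACTS : Pool.Agent.Helper33.Iso.QFACTS.{w}) : Pool.Agent.Helper33.Iso.THETA.{w} := by
  intro V _ _ _ p s lam ξ η hp hz hs hl heq
  have hQ : QQ p (uu p ξ, vv p η) =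
      (((2 * (1 - ‖ξ‖)) • ξ, (4 * max (1 - 2 * ‖η‖) 0) • η),
        max (2 * ‖ξ‖ - 1) (-(max (1 - 4 * ‖η‖) (-1)))) := by
    have h := (hQFACTS V p hp).2.2.2 ((2 * (1 - ‖ξ‖)) • ξ) ((4 * max (1 - 2 * ‖η‖) 0) • η)
      (2 * ‖ξ‖ - 1) (max (1 - 4 * ‖η‖) (-1))
    rw [← h]
    simp only [uu, vv, Submodule.coe_smul]
  rw [hQ] at heq
  -- norms
  have hξ1 : ‖ξ‖ ≤ 1 := by
    have h1 : ‖ξ‖ ≤ ‖(ξ, η)‖ := norm_fst_le (ξ, η)
    have h2 : ‖(ξ, η)‖ ≤ ‖(((ξ, η), s) : (UU p × UU p) × ℝ)‖ := norm_fst_le ((ξ, η), s)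
    linarith
  have hη1 : ‖η‖ ≤ 1 := by
    have h1 : ‖η‖ ≤ ‖(ξ, η)‖ := norm_snd_le (ξ, η)
    have h2 : ‖(ξ, η)‖ ≤ ‖(((ξ, η), s) : (UU p × UU p) × ℝ)‖ := norm_fst_le ((ξ, η), s)
    linarith
  have hs1 : -1 ≤ s := by
    have h2 : ‖s‖ ≤ ‖(((ξ, η), s) : (UU p × UU p) × ℝ)‖ := norm_snd_le ((ξ, η), s)
    rw [hz, Real.norm_eq_abs] at h2
    exact (abs_le.1 h2).1
  have hξ0 : 0 ≤ ‖ξ‖ := norm_nonneg _
  have hη0 : 0 ≤ ‖η‖ := norm_nonneg _
  -- components
  have e1 : (1 - (1 + s)) • ((2 * (1 - ‖ξ‖)) • ξ) + (1 + s) • (0 : UU p) = -(lam • ξ) :=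
    congrArg (fun x : (UU p × UU p) × ℝ => x.1.1) heq
  have e2 : (1 - (1 + s)) • ((4 * max (1 - 2 * ‖η‖) 0) • η) + (1 + s) • (0 : UU p) =
      -(lam • η) :=
    congrArg (fun x : (UU p × UU p) × ℝ => x.1.2) heq
  have e3 : (1 - (1 + s)) * max (2 * ‖ξ‖ - 1) (-(max (1 - 4 * ‖η‖) (-1))) + (1 + s) * 1 =
      -(lam * s) :=
    congrArg (fun x : (UU p × UU p) × ℝ => x.2) heq
  have f1 : ((-s) * (2 * (1 - ‖ξ‖)) + lam) • ξ = 0 := by
    have h : (1 - (1 + s)) • ((2 * (1 - ‖ξ‖)) • ξ) + lam • ξ = 0 := by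
      rw [smul_zero, add_zero] at e1
      rw [e1, neg_add_cancel]
    rw [smul_smul, ← add_smul] at h
    have hc : (-s) * (2 * (1 - ‖ξ‖)) + lam = (1 - (1 + s)) * (2 * (1 - ‖ξ‖)) + lam := by ring
    rw [hc]
    exact h
  have f2 : ((-s) * (4 * max (1 - 2 * ‖η‖) 0) + lam) • η = 0 := by
    have h : (1 - (1 + s)) • ((4 * max (1 - 2 * ‖η‖) 0) • η) + lam • η = 0 := by
      rw [smul_zero, add_zero] at e2
      rw [e2, neg_add_cancel]
    rw [smul_smul, ← add_smul] at h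
    have hc : (-s) * (4 * max (1 - 2 * ‖η‖) 0) + lam =
        (1 - (1 + s)) * (4 * max (1 - 2 * ‖η‖) 0) + lam := by ring
    rw [hc]
    exact h
  have hspos : 0 < -s := by linarith
  -- both points are zero
  have key : ξ = 0 ∧ η = 0 := by
    rcases hl.eq_or_lt with h0 | hpos
    · subst h0
      have hM : max (2 * ‖ξ‖ - 1) (-(max (1 - 4 * ‖η‖) (-1))) ≤ 0 := by
        by_contra hcon
        push Not at hcon
        have h1 : 0 < (-s) * max (2 * ‖ξ‖ - 1) (-(max (1 - 4 * ‖η‖) (-1))) :=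
          mul_pos hspos hcon
        nlinarith [e3]
      have hA : 2 * ‖ξ‖ - 1 ≤ 0 := le_trans (le_max_left _ _) hM
      have hB : -(max (1 - 4 * ‖η‖) (-1)) ≤ 0 := le_trans (le_max_right _ _) hM
      have hB' : 0 ≤ max (1 - 4 * ‖η‖) (-1) := by linarith
      have hB2 : 0 ≤ 1 - 4 * ‖η‖ := by
        rcases le_max_iff.1 hB' with h | h
        · exact h
        · norm_num at h
      constructor
      · rcases smul_eq_zero.1 f1 with h | h
        · exfalso
          have : 0 < (-s) * (2 * (1 - ‖ξ‖)) := mul_pos hspos (by linarith)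
          linarith
        · exact h
      · rcases smul_eq_zero.1 f2 with h | h
        · exfalso
          have h5 : 0 < max (1 - 2 * ‖η‖) 0 := lt_max_of_lt_left (by linarith)
          have : 0 < (-s) * (4 * max (1 - 2 * ‖η‖) 0) := mul_pos hspos (by linarith)
          linarith
        · exact h
    · constructor
      · rcases smul_eq_zero.1 f1 with h | h
        · exfalso
          have : 0 ≤ (-s) * (2 * (1 - ‖ξ‖)) := mul_nonneg hspos.le (by linarith)
          linarith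
        · exact h
      · rcases smul_eq_zero.1 f2 with h | h
        · exfalso
          have h5 : 0 ≤ max (1 - 2 * ‖η‖) 0 := le_max_right _ _
          have : 0 ≤ (-s) * (4 * max (1 - 2 * ‖η‖) 0) := mul_nonneg hspos.le (by linarith)
          linarith
        · exact h
  obtain ⟨hξ, hη⟩ := key
  subst hξ
  subst hη
  have hsm : s = -1 := by
    have h1 : ‖((((0 : UU p), (0 : UU p)), s) : (UU p × UU p) × ℝ)‖ = ‖s‖ := by
      rw [Prod.norm_def, Prod.norm_def]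
      simp
    rw [h1, Real.norm_eq_abs, abs_of_neg hs] at hz
    linarith
  subst hsm
  norm_num [norm_zero] at e3
  linarith

end Pool.Agent.Helper72.Iso
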